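import Pool.Agent.Lib.MP_69dca4_nt.Windows

set_option autoImplicit false

open Real

namespace Pool.Agent.Results.MP_69dca4_nt.NoFlatPrefixes

/-- No infinite sequence of unimodular numbers (in particular not the Liouville function) has all
its long initial segments flat from below: for every `c > 0` and every `N > 2 / c ^ 2`, some `M`
in the window `[N, ⌈4 / c ^ 2⌉ N]` has an exponential sum `∑_{n ≤ M} f n e(n θ)` of modulus
`< c √M` at some `θ`. -/
theorem result (c : ℝ) (hc : 0 < c) (f : ℕ → ℂ) (hf : ∀ n, 1 ≤ n → ‖f n‖ = 1) (N : ℕ)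
    (hN : 2 / c ^ 2 < N) :
    ∃ M : ℕ, N ≤ M ∧ M ≤ ⌈4 / c ^ 2⌉₊ * N ∧
      ∃ θ : ℝ, ‖∑ n ∈ Finset.Icc 1 M, f n * Complex.exp (2 * π * Complex.I * n * θ)‖
        < c * √M :=
  Pool.Agent.Lib.MP_69dca4_nt.main c hc f hf N hN

end Pool.Agent.Results.MP_69dca4_nt.NoFlatPrefixes
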